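import Pool.Agent.Helper99.SI.StA

/-!
# Project SI (MP_181f94), module A7: linear growth of the second grading
-/

set_option autoImplicit false

namespace Pool.Agent.Helper76.SI

open Pool.Agent.Helper99.SI

/-- All components of degree less than `d` vanish. -/
def Lo {L : Type} [Ring L] [Algebra ℂ L] [StarRing L] (B : ZGr L) (d : ℤ) (y : L) : Prop :=
  ∀ i < d, B.p i y = 0

lemma Lo.mono {L : Type} [Ring L] [Algebra ℂ L] [StarRing L] {B : ZGr L} {d e : ℤ} {y : L}
    (h : Lo B d y) (hed : e ≤ d) : Lo B e y := fun i hi => h i (lt_of_lt_of_le hi hed)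

lemma Lo.mul (h1 : StA0) {L : Type} [Ring L] [Algebra ℂ L] [StarRing L] [StarModule ℂ L]
    {B : ZGr L} {d e : ℤ} {y z : L} (hy : Lo B d y) (hz : Lo B e z) : Lo B (d + e) (y * z) := by
  intro k hk
  rw [(h1 L B).1 k y z]
  refine finsum_eq_zero_of_forall_eq_zero fun i => ?_
  by_cases hi : i < d
  · rw [hy i hi, zero_mul]
  · rw [hz (k - i) (by omega), mul_zero]

/-- Every element has a lower bound of its degrees. -/
lemma exists_lo {L : Type} [Ring L] [Algebra ℂ L] [StarRing L] (B : ZGr L) (y : L) :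
    ∃ c : ℕ, Lo B (-(c : ℤ)) y := by
  obtain ⟨a, ha⟩ := (B.fin y).bddBelow
  refine ⟨a.natAbs, fun i hi => ?_⟩
  by_contra h
  have := ha h
  omega

/-- A common lower bound for the words of length less than `k`. -/
lemma exists_lo_words {n : ℕ} {L : Type} [Ring L] [Algebra ℂ L] [StarRing L] (D : Sys n L)
    (k : ℕ) : ∃ c : ℕ, ∀ μ : W n, μ.length < k → Lo D.b (-(c : ℤ)) (D.w μ) := by
  choose f hf using fun μ : W n => exists_lo D.b (D.w μ)
  have hfin : {μ : W n | μ.length < k}.Finite := List.finite_length_lt (Fin n) k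
  obtain ⟨c, hc⟩ := (hfin.image f).bddAbove
  refine ⟨c, fun μ hμ => (hf μ).mono ?_⟩
  have h1 : f μ ≤ c := hc ⟨μ, hμ, rfl⟩
  omega

theorem hA7 (h1 : StA0) (h2 : StA1) : StA7 := by
  intro n L _ _ _ _ D
  obtain ⟨k, hk⟩ := D.G1 1
  obtain ⟨c0, hc0⟩ := exists_lo_words D (max 1 k)
  have hn1 : 1 ≤ max 1 k := le_max_left _ _
  have hk1 : ∀ μ : W n, max 1 k ≤ μ.length → Lo D.b 1 (D.w μ) := fun μ hμ i hi =>
    hk μ (le_trans (le_max_right _ _) hμ) i hi
  generalize max 1 k = n1 at hc0 hn1 hk1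
  -- growth
  have hgrow : ∀ (q : ℕ) (μ : W n), q * n1 ≤ μ.length → Lo D.b ((q : ℤ) - c0) (D.w μ) := by
    intro q
    induction q with
    | zero =>
      intro μ _
      by_cases hμ : μ.length < n1
      · exact (hc0 μ hμ).mono (by push_cast; omega)
      · exact (hk1 μ (not_lt.1 hμ)).mono (by push_cast; omega)
    | succ q ih =>
      intro μ hμ
      have hlen : q * n1 + n1 ≤ μ.length := by
        rw [← Nat.succ_mul]
        exact hμ
      have h3 : D.w μ = D.w (μ.take n1) * D.w (μ.drop n1) := by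
        rw [← (h2 n L D).1, List.take_append_drop]
      rw [h3]
      have h4 : Lo D.b 1 (D.w (μ.take n1)) := hk1 _ (by
        rw [List.length_take]
        omega)
      have h5 : Lo D.b ((q : ℤ) - c0) (D.w (μ.drop n1)) := ih _ (by
        rw [List.length_drop]
        omega)
      exact (h4.mul h1 h5).mono (by push_cast; omega)
  refine ⟨n1, (c0 + 1) * n1, hn1, fun μ hμ i hi => hk1 μ hμ i hi, fun μ i hi => ?_⟩
  have h6 : ((μ.length / n1 : ℕ) : ℤ) - c0 ≤ i := by
    by_contra hcon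
    push Not at hcon
    exact hi (hgrow (μ.length / n1) μ (Nat.div_mul_le_self _ _) i hcon)
  have h7 : μ.length < (μ.length / n1 + 1) * n1 := Nat.lt_mul_of_div_lt (Nat.lt_succ_self _) (by omega)
  have h8 : (μ.length : ℤ) < (((μ.length / n1 : ℕ) : ℤ) + 1) * n1 := by exact_mod_cast h7
  have h9 : (((μ.length / n1 : ℕ) : ℤ) + 1) * n1 ≤ (i + c0 + 1) * n1 :=
    mul_le_mul_of_nonneg_right (by omega) (by positivity)
  push_cast
  nlinarith

end Pool.Agent.Helper76.SI
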