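import Pool.Agent.Helper99.SI.StM

/-!
# Project SI (MP_181f94), module M14: existence of the model
-/

set_option autoImplicit false

namespace Pool.Agent.Helper76.SI

open Pool.Agent.Helper99.SI LaurentPolynomial

section

variable {n : ℕ} {L : Type} [Ring L] [Algebra ℂ L] [StarRing L]

/-- The supports of the coordinates of one element are bounded. -/
lemma co_bound {D : Sys n L} {X0 : Set L} {M r : ℕ} (B : YBas D X0 M r) (y : LL L) :
    ∃ N : ℕ, ∀ (j : ℤ) (i : Idx n r), B.co j y i ≠ 0 → ilen i < N := by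
  classical
  by_cases h : y ∈ D.YY X0
  · obtain ⟨N, hN⟩ := ((((B.B.repr ⟨y, h⟩).support.image (emI (n := n) (M := M) (r := r)) :
      Finset (Idx n r)) : Set (Idx n r)).toFinite.image (fun i => ilen i)).bddAbove
    refine ⟨N + 1, fun j i hi => Nat.lt_succ_of_le (hN ⟨i, ?_, rfl⟩)⟩
    unfold YBas.co at hi
    rw [dif_pos h] at hi
    have h1 := Finsupp.mapDomain_support (Finsupp.mem_support_iff.2 hi)
    obtain ⟨i', hi', hii⟩ := Finset.mem_image.1 h1
    rw [Finset.mem_coe]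
    refine Finset.mem_image.2 ⟨i', ?_, hii⟩
    exact Finsupp.support_mapRange hi'
  · refine ⟨0, fun j i hi => absurd ?_ hi⟩
    unfold YBas.co
    rw [dif_neg h]
    rfl

end

theorem hM14 (h1 : StA3) (h2 : StA4) (h3 : StA5) (h4 : StM0) (h5 : StM6) (h6 : StM7) (h7 : StM9)
    (h8 : StM10) (h9 : StM11) (h10 : StM12) (h11 : StM13) : StM14 := by
  intro n L _ _ _ _ _ D X0 hfin hX hone
  obtain ⟨k, hk⟩ := D.G1 1
  set M : ℕ := max 1 k with hM
  have hM1 : 1 ≤ M := le_max_left _ _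
  have hpos : ∀ μ : W n, M ≤ μ.length → ∀ i < (1 : ℤ), D.b.p i (D.w μ) = 0 := fun μ hμ i hi =>
    hk μ (le_trans (le_max_right _ _) hμ) i hi
  obtain ⟨r, ⟨B⟩⟩ := h5 n L D X0 M hfin (fun x hx => (hX x hx).1) hone hpos
  -- levels
  have hlev1 : ∀ y : L, ∃ N : ℕ, ∀ κ : W n, N ≤ κ.length → y * D.w κ ∈ D.Sge M := by
    intro y
    obtain ⟨l, c, hlc⟩ := h2 n L D y
    refine ⟨max l (M + c), fun κ hκ => ?_⟩
    obtain ⟨hS, hcf⟩ := hlc κ (le_trans (le_max_left _ _) hκ)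
    rw [(h3 n L D).2.2.2.2.2 _ hS M]
    intro μ hμ
    have h12 := (hcf μ hμ).1
    have h13 := le_trans (le_max_right _ _) hκ
    omega
  choose f hf using hlev1
  have hT : {y : L | ∃ (i : Fin n) (j : ℤ), y = star (D.b.p j (D.x i))}.Finite := by
    have h12 : {y : L | ∃ (i : Fin n) (j : ℤ), y = star (D.b.p j (D.x i))} ⊆
        (⋃ i : Fin n, (fun j : ℤ => star (D.b.p j (D.x i))) '' {j : ℤ | D.b.p j (D.x i) ≠ 0}) ∪
          {0} := by
      rintro y ⟨i, j, rfl⟩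
      by_cases h0 : D.b.p j (D.x i) = 0
      · right
        rw [h0, star_zero]
        rfl
      · left
        exact Set.mem_iUnion.2 ⟨i, j, h0, rfl⟩
    refine Set.Finite.subset ?_ h12
    exact (Set.finite_iUnion fun i => (D.b.fin (D.x i)).image _).union (Set.finite_singleton _)
  obtain ⟨N1, hN1⟩ := (hT.image f).bddAbove
  choose g hg using fun y : LL L => co_bound B y
  have hT2 : ((fun a : Fin r => D.CL (B.b a)) '' Set.univ ∪ (fun x : L => (C x : LL L)) '' X0).Finite :=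
    (Set.finite_univ.image _).union (hfin.image _)
  obtain ⟨N2, hN2⟩ := (hT2.image g).bddAbove
  set M2 : ℕ := max M (max N1 N2) with hM2
  have hlev : ∀ ν : W n, M2 ≤ ν.length → ∀ (j : ℤ) (i : Fin n),
      star (D.b.p j (D.x i)) * D.w ν ∈ D.Sge M := by
    intro ν hν j i
    refine hf _ ν (le_trans (hN1 ⟨_, ⟨i, j, rfl⟩, rfl⟩) (le_trans ?_ hν))
    exact le_trans (le_max_left _ _) (le_max_right _ _)
  have hMod : ModHyp D X0 M M2 := ⟨hfin, hX, hone, hM1, le_max_left _ _, hpos, hlev⟩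
  obtain ⟨Z, hz1, hz2, hz3, hz4, hz5⟩ := h7 n L D X0 M M2 r B hMod
  obtain ⟨hl1, hl2, hl3⟩ := h8 n L D X0 M M2 r B Z hMod hz2
  obtain ⟨he1, he2⟩ := h9 n L D X0 M M2 r B Z hMod hz2 hz4
  obtain ⟨hn1, hn2⟩ := h10 n L D X0 M M2 r B Z hMod hz2 hz4
  have hc := h11 n L D X0 M M2 r B Z hMod hz2 hz4 hz3
  obtain ⟨_, hbt1, _, _, _, _, _, _, _, hevC, _, _⟩ := h4 L D.b
  have hN2le : ∀ y ∈ ((fun a : Fin r => D.CL (B.b a)) '' Set.univ ∪
      (fun x : L => (C x : LL L)) '' X0), g y ≤ M2 := fun y hy =>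
    le_trans (hN2 ⟨y, hy, rfl⟩) (le_trans (le_max_right _ _) (le_max_right _ _))
  refine ⟨B.mk' M2 Z, ?_⟩
  refine {
    M1 := hM1
    MM := le_max_left _ _
    pos := hpos
    lev := hlev
    zx := hz1
    fpi := he2
    long1 := fun j _ ν hν => (hl1 j ν hν).1
    long2 := fun j _ ν hν => (hl1 j ν hν).2
    dum1 := fun j ν hν => ⟨(hl2 j ν hν).1, (hl2 j ν hν).2.1⟩
    dum2 := fun j ν hν => (hl2 j ν hν).2.2
    band := hl3
    nil := hn1
    cok := hn2
    lift := ?_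
    Csupp := ?_
    Cinv := fun t ht z => (hc t ht z).1
    Ccomm := fun t ht z => (hc t ht z).2.1
    Cpi := fun t ht z => (hc t ht z).2.2 }
  · intro y hy
    have hyY : (C y : LL L) ∈ D.YY X0 := by
      refine Submodule.subset_span ⟨y, hy, [], [], ?_⟩
      have hw : D.w [] = 1 := rfl
      rw [hw, star_one, hbt1, mul_one, map_one, one_mul]
    refine ⟨fun j => B.co j (C y), fun j i hi => ?_, fun t ht => ?_⟩
    · exact lt_of_lt_of_le (hg (C y) j i hi) (hN2le _ (Or.inr ⟨y, hy, rfl⟩))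
    · have h12 := he1 t (C y) ht hyY (fun j hj => hz5 j hj y hy)
      rw [hevC] at h12
      exact h12
  · intro j a i hi
    exact lt_of_lt_of_le (hg _ j i hi) (hN2le _ (Or.inl ⟨a, Set.mem_univ _, rfl⟩))

end Pool.Agent.Helper76.SI
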